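import Pool.Agent.H25.GD.Targets
import Mathlib.MeasureTheory.Integral.IntervalIntegral.AbsolutelyContinuousFun

/-!
# The theorem of F. Riesz on square integrable derivatives

A monotone continuous function whose sums of the squares of the increments, divided by the mesh,
are bounded along the uniform partitions is absolutely continuous (Cauchy-Schwarz), and its
derivative is square integrable (lemma of Fatou for the step functions of the difference
quotients).
-/

set_option autoImplicit false

namespace Pool.Agent.H75.GD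

open MeasureTheory Filter Topology
open Pool.Agent.H44.DU

/-- The points of the uniform partition. -/
noncomputable def px (a b : ℝ) (m j : ℕ) : ℝ := a + j * ((b - a) / m)

/-- The number of the interval of the uniform partition that contains the point. -/
noncomputable def pf (a b : ℝ) (m : ℕ) (x : ℝ) : ℕ := ⌊(x - a) / ((b - a) / m)⌋₊

theorem px_mono {a b : ℝ} (hab : a < b) (m : ℕ) : Monotone (px a b m) := by
  intro i j hij
  unfold px
  have h1 : (i : ℝ) ≤ j := by exact_mod_cast hij
  have h2 : 0 ≤ (b - a) / (m : ℝ) := div_nonneg (by linarith) (Nat.cast_nonneg m)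
  nlinarith [mul_le_mul_of_nonneg_right h1 h2]

theorem px_succ (a b : ℝ) (m j : ℕ) : px a b m (j + 1) - px a b m j = (b - a) / m := by
  unfold px
  push_cast
  ring

theorem px_last {a b : ℝ} {m : ℕ} (hm : 0 < m) : px a b m m = b := by
  unfold px
  have : (m : ℝ) ≠ 0 := by exact_mod_cast hm.ne'
  field_simp
  ring

theorem pf_mono {a b : ℝ} (hab : a < b) (m : ℕ) : Monotone (pf a b m) := by
  intro x y hxy
  unfold pf
  apply Nat.floor_le_floor
  apply div_le_div_of_nonneg_right (by linarith)
  exact div_nonneg (by linarith) (Nat.cast_nonneg m)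

theorem pf_le {a b : ℝ} (hab : a < b) {m : ℕ} (hm : 0 < m) {x : ℝ} (hx : a ≤ x) :
    px a b m (pf a b m x) ≤ x := by
  unfold px pf
  have hD : 0 < (b - a) / (m : ℝ) := div_pos (by linarith) (by exact_mod_cast hm)
  have h1 := Nat.floor_le (div_nonneg (sub_nonneg.2 hx) hD.le)
  have h2 := mul_le_mul_of_nonneg_right h1 hD.le
  rw [div_mul_cancel₀ _ hD.ne'] at h2
  linarith

theorem lt_pf {a b : ℝ} (hab : a < b) {m : ℕ} (hm : 0 < m) (x : ℝ) :
    x < px a b m (pf a b m x + 1) := by
  unfold px pf
  have hD : 0 < (b - a) / (m : ℝ) := div_pos (by linarith) (by exact_mod_cast hm)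
  have h1 := Nat.lt_floor_add_one ((x - a) / ((b - a) / (m : ℝ)))
  have h2 := mul_lt_mul_of_pos_right h1 hD
  rw [div_mul_cancel₀ _ hD.ne'] at h2
  push_cast
  linarith

theorem pf_le_m {a b : ℝ} (hab : a < b) {m : ℕ} (hm : 0 < m) {x : ℝ} (hx : x ≤ b) :
    pf a b m x ≤ m := by
  have hD : 0 < (b - a) / (m : ℝ) := div_pos (by linarith) (by exact_mod_cast hm)
  unfold pf
  apply Nat.floor_le_of_le
  rw [div_le_iff₀ hD]
  have : (m : ℝ) ≠ 0 := by exact_mod_cast hm.ne'
  rw [mul_div_cancel₀ _ this]
  linarith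

theorem pf_eq {a b : ℝ} (hab : a < b) {m j : ℕ} (hm : 0 < m) {x : ℝ} (h1 : px a b m j ≤ x)
    (h2 : x < px a b m (j + 1)) : pf a b m x = j := by
  have hD : 0 < (b - a) / (m : ℝ) := div_pos (by linarith) (by exact_mod_cast hm)
  unfold px at h1 h2
  unfold pf
  have hj : 0 ≤ (j : ℝ) * ((b - a) / m) := mul_nonneg (Nat.cast_nonneg j) hD.le
  rw [Nat.floor_eq_iff (div_nonneg (by linarith) hD.le)]
  constructor
  · rw [le_div_iff₀ hD]
    linarith
  · rw [div_lt_iff₀ hD]
    push_cast at h2
    linarith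

/-- The mesh tends to zero. -/
theorem mesh_tendsto (a b : ℝ) : Tendsto (fun m : ℕ => (b - a) / (m : ℝ)) atTop (𝓝 0) :=
  tendsto_const_div_atTop_nhds_zero_nat (b - a)

theorem px_tendsto {a b : ℝ} (hab : a < b) {x : ℝ} (hx : a ≤ x) :
    Tendsto (fun m : ℕ => px a b m (pf a b m x)) atTop (𝓝 x) := by
  have h1 : Tendsto (fun m : ℕ => x - (b - a) / (m : ℝ)) atTop (𝓝 x) := by
    simpa using (tendsto_const_nhds (x := x)).sub (mesh_tendsto a b)
  refine tendsto_of_tendsto_of_tendsto_of_le_of_le' h1 tendsto_const_nhds ?_ ?_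
  · filter_upwards [eventually_gt_atTop 0] with m hm
    have h2 := lt_pf hab hm x
    have h3 := px_succ a b m (pf a b m x)
    linarith
  · filter_upwards [eventually_gt_atTop 0] with m hm
    exact pf_le hab hm hx

/-- The inequality of Cauchy-Schwarz for disjoint intervals between points of the partition. -/
theorem cs_step {p : ℝ → ℝ} {a b C : ℝ} {m : ℕ} (hab : a < b) (hm : 0 < m)
    (hC : ∑ j ∈ Finset.range m, (p (px a b m (j + 1)) - p (px a b m j)) ^ 2 / ((b - a) / m) ≤ C)
    {n : ℕ} {u v : ℕ → ℕ} (huv : ∀ i ∈ Finset.range n, u i ≤ v i)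
    (hvm : ∀ i ∈ Finset.range n, v i ≤ m)
    (hd : Set.PairwiseDisjoint (Finset.range n : Set ℕ) (fun i => Finset.Ico (u i) (v i))) :
    (∑ i ∈ Finset.range n, (p (px a b m (v i)) - p (px a b m (u i)))) ^ 2 ≤
      C * ∑ i ∈ Finset.range n, (px a b m (v i) - px a b m (u i)) := by
  have hD : 0 < (b - a) / (m : ℝ) := div_pos (by linarith) (by exact_mod_cast hm)
  set T := (Finset.range n).biUnion (fun i => Finset.Ico (u i) (v i)) with hT
  have hTs : T ⊆ Finset.range m := by
    intro j hj
    rw [hT, Finset.mem_biUnion] at hj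
    obtain ⟨i, hi, hj⟩ := hj
    rw [Finset.mem_Ico] at hj
    exact Finset.mem_range.2 (lt_of_lt_of_le hj.2 (hvm i hi))
  have e1 : ∀ f : ℕ → ℝ, ∑ j ∈ T, (f (j + 1) - f j) = ∑ i ∈ Finset.range n, (f (v i) - f (u i)) := by
    intro f
    rw [hT, Finset.sum_biUnion hd]
    exact Finset.sum_congr rfl fun i hi => Finset.sum_Ico_sub f (huv i hi)
  rw [← e1 (fun j => p (px a b m j)), ← e1 (fun j => px a b m j)]
  have h1 := Finset.sum_sq_le_sum_mul_sum_of_sq_le_mul T
    (r := fun j => p (px a b m (j + 1)) - p (px a b m j))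
    (f := fun j => (p (px a b m (j + 1)) - p (px a b m j)) ^ 2 / ((b - a) / m))
    (g := fun j => px a b m (j + 1) - px a b m j)
    (fun j _ => div_nonneg (sq_nonneg _) hD.le)
    (fun j _ => by rw [px_succ]; exact hD.le)
    (fun j _ => by rw [px_succ, div_mul_cancel₀ _ hD.ne'])
  refine h1.trans ?_
  apply mul_le_mul_of_nonneg_right
  · exact (Finset.sum_le_sum_of_subset_of_nonneg hTs
      (fun j _ _ => div_nonneg (sq_nonneg _) hD.le)).trans hC
  · exact Finset.sum_nonneg fun j _ => by rw [px_succ]; exact hD.le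

/-- Such a function is absolutely continuous. -/
theorem rsz_ac {p : ℝ → ℝ} {a b C : ℝ} {m₀ : ℕ} (hab : a < b) (hp : Monotone p)
    (hc : Continuous p)
    (h : ∀ m : ℕ, m₀ ≤ m → 0 < m → ∑ j ∈ Finset.range m,
      (p (px a b m (j + 1)) - p (px a b m j)) ^ 2 / ((b - a) / m) ≤ C) :
    AbsolutelyContinuousOnInterval p a b := by
  have hC0 : 0 ≤ C := by
    refine le_trans ?_ (h (m₀ + 1) (by omega) (by omega))
    exact Finset.sum_nonneg fun j _ => div_nonneg (sq_nonneg _)
      (div_nonneg (by linarith) (Nat.cast_nonneg _))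
  rw [absolutelyContinuousOnInterval_iff]
  intro ε hε
  refine ⟨ε ^ 2 / (C + 1), by positivity, ?_⟩
  rintro ⟨n, I⟩ ⟨hI, hd⟩ hs
  simp only at hI hd hs ⊢
  rw [Set.uIcc_of_le hab.le] at hI
  -- the endpoints in order
  have hord : ∀ i, dist (p (I i).1) (p (I i).2) =
      p (max (I i).1 (I i).2) - p (min (I i).1 (I i).2) := by
    intro i
    rw [Real.dist_eq, hp.map_max, hp.map_min, max_sub_min_eq_abs']
  have hord' : ∀ i, dist (I i).1 (I i).2 = max (I i).1 (I i).2 - min (I i).1 (I i).2 := by
    intro i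
    rw [Real.dist_eq, max_sub_min_eq_abs']
  simp only [hord]
  simp only [hord'] at hs
  have hlim1 : Tendsto (fun m : ℕ => (∑ i ∈ Finset.range n,
      (p (px a b m (pf a b m (max (I i).1 (I i).2))) -
        p (px a b m (pf a b m (min (I i).1 (I i).2))))) ^ 2) atTop
      (𝓝 ((∑ i ∈ Finset.range n,
        (p (max (I i).1 (I i).2) - p (min (I i).1 (I i).2))) ^ 2)) := by
    apply Tendsto.pow
    apply tendsto_finsetSum
    intro i hi
    have hi' := hI i hi
    exact ((hc.tendsto _).comp (px_tendsto hab (le_max_of_le_left hi'.1.1))).sub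
      ((hc.tendsto _).comp (px_tendsto hab (le_min hi'.1.1 hi'.2.1)))
  have hlim2 : Tendsto (fun m : ℕ => C * ∑ i ∈ Finset.range n,
      (px a b m (pf a b m (max (I i).1 (I i).2)) -
        px a b m (pf a b m (min (I i).1 (I i).2)))) atTop
      (𝓝 (C * ∑ i ∈ Finset.range n, (max (I i).1 (I i).2 - min (I i).1 (I i).2))) := by
    apply Tendsto.const_mul
    apply tendsto_finsetSum
    intro i hi
    have hi' := hI i hi
    exact (px_tendsto hab (le_max_of_le_left hi'.1.1)).sub
      (px_tendsto hab (le_min hi'.1.1 hi'.2.1))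
  have hle : (∑ i ∈ Finset.range n,
        (p (max (I i).1 (I i).2) - p (min (I i).1 (I i).2))) ^ 2 ≤
      C * ∑ i ∈ Finset.range n, (max (I i).1 (I i).2 - min (I i).1 (I i).2) := by
    refine le_of_tendsto_of_tendsto hlim1 hlim2 ?_
    filter_upwards [eventually_ge_atTop m₀, eventually_gt_atTop 0] with m hm0 hm
    refine cs_step hab hm (h m hm0 hm)
      (u := fun i => pf a b m (min (I i).1 (I i).2))
      (v := fun i => pf a b m (max (I i).1 (I i).2))
      (fun i _ => pf_mono hab m min_le_max)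
      (fun i hi => pf_le_m hab hm (max_le (hI i hi).1.2 (hI i hi).2.2)) ?_
    intro i hi k hk hik
    have h1 := hd hi hk hik
    simp only [Function.onFun, Set.uIoc] at h1
    rw [Set.Ioc_disjoint_Ioc] at h1
    simp only [Function.onFun]
    rw [Finset.disjoint_left]
    intro j hj hj'
    rw [Finset.mem_Ico] at hj hj'
    rcases min_le_iff.1 h1 with h1 | h1 <;> rcases le_max_iff.1 h1 with h1 | h1 <;>
      have h2 := pf_mono hab m h1 <;>
      have h3 := pf_mono hab m (min_le_max (a := (I i).1) (b := (I i).2)) <;>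
      have h4 := pf_mono hab m (min_le_max (a := (I k).1) (b := (I k).2)) <;> omega
  have hS : 0 ≤ ∑ i ∈ Finset.range n, (max (I i).1 (I i).2 - min (I i).1 (I i).2) :=
    Finset.sum_nonneg fun i _ => sub_nonneg.2 min_le_max
  have h3 : C * ∑ i ∈ Finset.range n, (max (I i).1 (I i).2 - min (I i).1 (I i).2) < ε ^ 2 := by
    rw [lt_div_iff₀ (by linarith)] at hs
    nlinarith
  exact lt_of_pow_lt_pow_left₀ 2 hε.le (hle.trans_lt h3)

theorem px_succ_tendsto {a b : ℝ} (hab : a < b) {x : ℝ} (hx : a ≤ x) :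
    Tendsto (fun m : ℕ => px a b m (pf a b m x + 1)) atTop (𝓝 x) := by
  have h1 := (px_tendsto hab hx).add (mesh_tendsto a b)
  rw [add_zero] at h1
  refine h1.congr fun m => ?_
  have := px_succ a b m (pf a b m x)
  linarith

/-- The difference quotients over the intervals of the partitions that contain the point. -/
theorem quot_tendsto {p : ℝ → ℝ} {a b d x : ℝ} (hab : a < b) (hx : a ≤ x)
    (hd : HasDerivAt p d x) :
    Tendsto (fun m : ℕ => (p (px a b m (pf a b m x + 1)) - p (px a b m (pf a b m x))) /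
      ((b - a) / m)) atTop (𝓝 d) := by
  rw [Metric.tendsto_nhds]
  intro ε hε
  have h1 := (hasDerivAt_iff_isLittleO.1 hd).def (half_pos hε)
  filter_upwards [(px_tendsto hab hx).eventually h1, (px_succ_tendsto hab hx).eventually h1,
    eventually_gt_atTop 0] with m h2 h3 hm
  have hD : 0 < (b - a) / (m : ℝ) := div_pos (by linarith) (by exact_mod_cast hm)
  have h4 := pf_le hab hm hx
  have h5 := lt_pf hab hm x
  have h6 := px_succ a b m (pf a b m x)
  rw [Real.norm_eq_abs, Real.norm_eq_abs, smul_eq_mul] at h2 h3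
  rw [abs_of_nonpos (by linarith : px a b m (pf a b m x) - x ≤ 0)] at h2
  rw [abs_of_pos (by linarith : 0 < px a b m (pf a b m x + 1) - x)] at h3
  rw [Real.dist_eq, ← mul_div_cancel_right₀ d hD.ne', ← sub_div, abs_div, abs_of_pos hD,
    div_lt_iff₀ hD]
  have h7 := abs_le.1 h2
  have h8 := abs_le.1 h3
  have h9 : p (px a b m (pf a b m x + 1)) - p (px a b m (pf a b m x)) - d * ((b - a) / m) =
      (p (px a b m (pf a b m x + 1)) - p x - (px a b m (pf a b m x + 1) - x) * d) -
      (p (px a b m (pf a b m x)) - p x - (px a b m (pf a b m x) - x) * d) := by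
    rw [← h6]
    ring
  rw [h9]
  have h10 : ε / 2 * ((b - a) / m) = ε / 2 * (px a b m (pf a b m x + 1) - x) +
      ε / 2 * -(px a b m (pf a b m x) - x) := by
    rw [← h6]
    ring
  have h11 : 0 < ε / 2 * ((b - a) / m) := by positivity
  rw [abs_lt]
  constructor <;> linarith

/-- The integral of a step function. -/
theorem lint_step (c : ℕ → ENNReal) {a b : ℝ} {m : ℕ} (hab : a < b) (hm : 0 < m) (k : ℕ) :
    ∫⁻ x in Set.Ico a (px a b m k), c (pf a b m x) =
      ∑ j ∈ Finset.range k, c j * ENNReal.ofReal ((b - a) / m) := by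
  induction k with
  | zero => simp [px]
  | succ k ih =>
    have h0 : a ≤ px a b m k := by
      have := px_mono hab m (Nat.zero_le k)
      simpa [px] using this
    have h1 : px a b m k ≤ px a b m (k + 1) := px_mono hab m (Nat.le_succ k)
    rw [← Set.Ico_union_Ico_eq_Ico h0 h1, lintegral_union measurableSet_Ico, ih,
      Finset.sum_range_succ]
    · congr 1
      rw [setLIntegral_congr_fun (g := fun _ => c k) measurableSet_Ico
        (fun x hx => by simp only [pf_eq hab hm hx.1 hx.2]), setLIntegral_const, Real.volume_Ico,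
        px_succ]
    · rw [Set.Ico_disjoint_Ico]
      exact (min_le_left _ _).trans (le_max_right _ _)

theorem pf_meas (a b : ℝ) (m : ℕ) : Measurable (pf a b m) :=
  Nat.measurable_floor.comp ((measurable_id.sub_const a).div_const _)

/-- The derivative is square integrable. -/
theorem rsz_l2 {p : ℝ → ℝ} {a b C : ℝ} {m₀ : ℕ} (hab : a < b) (hp : Monotone p)
    (h : ∀ m : ℕ, m₀ ≤ m → 0 < m → ∑ j ∈ Finset.range m,
      (p (px a b m (j + 1)) - p (px a b m j)) ^ 2 / ((b - a) / m) ≤ C) :
    IntegrableOn (fun x => deriv p x ^ 2) (Set.Icc a b) := by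
  rw [integrableOn_Icc_iff_integrableOn_Ico]
  refine ⟨((measurable_deriv p).pow_const 2).aestronglyMeasurable, ?_⟩
  rw [hasFiniteIntegral_iff_ofReal (Eventually.of_forall fun x => sq_nonneg _)]
  let q : ℕ → ℕ → ENNReal := fun m j => ENNReal.ofReal
    (((p (px a b m (j + 1)) - p (px a b m j)) / ((b - a) / m)) ^ 2)
  have hq : ∀ m, m₀ ≤ m → 0 < m → ∫⁻ x in Set.Ico a b, q m (pf a b m x) ≤ ENNReal.ofReal C := by
    intro m hm0 hm
    have hD : 0 < (b - a) / (m : ℝ) := div_pos (by linarith) (by exact_mod_cast hm)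
    have h1 := lint_step (q m) hab hm m
    rw [px_last hm] at h1
    rw [h1]
    simp only [q]
    simp only [← ENNReal.ofReal_mul (sq_nonneg _)]
    rw [← ENNReal.ofReal_sum_of_nonneg (fun j _ => mul_nonneg (sq_nonneg _) hD.le)]
    apply ENNReal.ofReal_le_ofReal
    refine le_trans (le_of_eq ?_) (h m hm0 hm)
    refine Finset.sum_congr rfl fun j _ => ?_
    field_simp
  have hf : ∫⁻ x in Set.Ico a b, ENNReal.ofReal (deriv p x ^ 2) ≤ ENNReal.ofReal C := by
    calc ∫⁻ x in Set.Ico a b, ENNReal.ofReal (deriv p x ^ 2)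
        = ∫⁻ x in Set.Ico a b, liminf (fun m => q m (pf a b m x)) atTop := by
          apply lintegral_congr_ae
          rw [EventuallyEq, ae_restrict_iff' measurableSet_Ico]
          filter_upwards [hp.ae_differentiableAt] with x hx hxI
          have h1 := quot_tendsto hab hxI.1 hx.hasDerivAt
          exact ((ENNReal.continuous_ofReal.tendsto _).comp (h1.pow 2)).liminf_eq.symm
      _ ≤ liminf (fun m => ∫⁻ x in Set.Ico a b, q m (pf a b m x)) atTop :=
          lintegral_liminf_le fun m => (measurable_from_nat (f := q m)).comp (pf_meas a b m)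
      _ ≤ ENNReal.ofReal C := by
          apply liminf_le_of_frequently_le'
          apply Eventually.frequently
          filter_upwards [eventually_ge_atTop m₀, eventually_gt_atTop 0] with m hm0 hm
          exact hq m hm0 hm
  exact hf.trans_lt ENNReal.ofReal_lt_top

theorem pf_V_RSZ : V_RSZ := by
  intro p a b C m₀ hab hp hc h
  have h' : ∀ m : ℕ, m₀ ≤ m → 0 < m → ∑ j ∈ Finset.range m,
      (p (px a b m (j + 1)) - p (px a b m j)) ^ 2 / ((b - a) / m) ≤ C := h
  refine ⟨rsz_l2 hab hp h', ?_⟩
  intro x y hax hxy hyb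
  apply AbsolutelyContinuousOnInterval.integral_deriv_eq_sub
  apply (rsz_ac hab hp hc h').mono
  rw [Set.uIcc_of_le hxy, Set.uIcc_of_le hab.le]
  exact Set.Icc_subset_Icc hax hyb

end Pool.Agent.H75.GD
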